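import Pool.Agent.Helper93.TLE.StB

/-!
# Project TLE, module HKS: the Hecke operators preserve twisted symbols of level `p^n`
-/

set_option autoImplicit false

namespace Pool.Agent.Helper68.TLE

open Pool.Agent.Helper14.CV (Homog EqC act Tl StFar StFex)
open Pool.Agent.Helper28.WK (Tw evw)
open Pool.Agent.Helper4.TL Pool.Agent.Helper93.TLE

/-- representatives of the Hecke sum multiplied by a matrix -/
private def dl (l : ℕ) (a b c d : ℤ) : Fin (l + 1) → Matrix (Fin 2) (Fin 2) ℤ :=
  Fin.lastCases (motive := fun _ => Matrix (Fin 2) (Fin 2) ℤ) !![(l : ℤ) * a, (l : ℤ) * b; c, d]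
    (fun j : Fin l => !![a + 2 * (j : ℕ) * c, b + 2 * (j : ℕ) * d; (l : ℤ) * c, (l : ℤ) * d])

private lemma dl_last (l : ℕ) (a b c d : ℤ) : dl l a b c d (Fin.last l) = !![(l : ℤ) * a, (l : ℤ) * b; c, d] := by
  unfold dl
  rw [Fin.lastCases_last]

private lemma dl_cast (l : ℕ) (a b c d : ℤ) (j : Fin l) :
    dl l a b c d j.castSucc = !![a + 2 * (j : ℕ) * c, b + 2 * (j : ℕ) * d; (l : ℤ) * c, (l : ℤ) * d] := by
  unfold dl
  rw [Fin.lastCases_castSucc]

private lemma homog_Tl (R : Type) [AddCommGroup R] (l : ℕ) (hl : l ≠ 0) (G : ℤ → ℤ → R) (hG : Homog G) :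
    Homog (Tl l 2 G) := by
  intro k p q hk hpq
  have hl' : (l : ℤ) ≠ 0 := by exact_mod_cast hl
  unfold Tl
  have e1 : G ((l : ℤ) * (k * p)) (k * q) = G ((l : ℤ) * p) q := by
    have h := hG k ((l : ℤ) * p) q hk (by
      rcases hpq with h | h
      · exact Or.inl (mul_ne_zero hl' h)
      · exact Or.inr h)
    rw [← h]
    congr 1
    ring
  rw [e1]
  congr 1
  refine Finset.sum_congr rfl fun j _ => ?_
  have h := hG k (p + 2 * (j : ℤ) * q) ((l : ℤ) * q) hk (by
    by_cases hq : q = 0
    · left
      rcases hpq with h | h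
      · rw [hq, mul_zero, add_zero]
        exact h
      · exact absurd hq h
    · exact Or.inr (mul_ne_zero hl' hq))
  rw [← h]
  congr 1 <;> ring

private lemma sym_Tl (hHk : SEHk) (p : ℕ) (hp : p.Prime) (hp2 : p ≠ 2) (R : Type) [inst : AddCommGroup R]
    (n l : ℕ) (G : ℤ → ℤ → R)
    (hl : l.Prime) (hlp : l ≠ p) (hl2 : l ≠ 2) (hG : SymE p 0 n G) : SymE p 0 n (Tl l 2 G) := by
  have hl0 : l ≠ 0 := hl.ne_zero
  have hl1 : ¬ ((l : ℤ) ∣ 1) := by
    intro h
    have h1 := Int.natCast_dvd_natCast.1 (by exact_mod_cast h : ((l : ℕ) : ℤ) ∣ ((1 : ℕ) : ℤ))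
    exact hl.one_lt.ne' (Nat.dvd_one.1 h1)
  have hodd : l % 2 = 1 := (Nat.Prime.eq_two_or_odd hl).resolve_left hl2
  obtain ⟨k, hk⟩ : ∃ k : ℕ, l = 2 * k + 1 := ⟨l / 2, by omega⟩
  have hkz : (l : ℤ) = 2 * (k : ℤ) + 1 := by rw [hk]; push_cast; ring
  have hlpz : Prime (l : ℤ) := Nat.prime_iff_prime_int.1 hl
  refine ⟨homog_Tl R l hl0 G hG.1, ?_⟩
  intro a b c d hdet _ hc
  have key := hHk p hp hp2 R inst n l G hl hlp hl2 hG (dl l a b c d) (fun P => by
      refine Fin.lastCases ?_ (fun j => ?_) P
      · rw [dl_last, Matrix.det_fin_two_of]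
        linear_combination (l : ℤ) * hdet
      · rw [dl_cast, Matrix.det_fin_two_of]
        linear_combination (l : ℤ) * hdet)
    (fun P => by
      refine Fin.lastCases ?_ (fun j => ?_) P
      · rw [dl_last]
        simpa using hc
      · rw [dl_cast]
        simpa using Dvd.dvd.mul_left hc (l : ℤ))
    (fun P P' => by
      refine Fin.lastCases ?_ (fun j => ?_) P <;> refine Fin.lastCases ?_ (fun j' => ?_) P'
      · intro h
        exact absurd rfl h
      · intro _ h
        have h1 := h 1 1
        rw [dl_last, dl_cast, Matrix.adjugate_fin_two_of] at h1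
        simp only [Matrix.mul_apply, Fin.sum_univ_two, Matrix.of_apply, Matrix.cons_val', Matrix.cons_val_zero,
          Matrix.cons_val_one, Matrix.cons_val_fin_one] at h1
        apply hl1
        have e : c * -(b + 2 * (j' : ℕ) * d) + d * (a + 2 * (j' : ℕ) * c) = 1 := by linear_combination hdet
        rwa [e] at h1
      · intro _ h
        have h1 := h 0 0
        rw [dl_last, dl_cast, Matrix.adjugate_fin_two_of] at h1
        simp only [Matrix.mul_apply, Fin.sum_univ_two, Matrix.of_apply, Matrix.cons_val', Matrix.cons_val_zero,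
          Matrix.cons_val_one, Matrix.cons_val_fin_one] at h1
        apply hl1
        have e : (a + 2 * (j : ℕ) * c) * d + (b + 2 * (j : ℕ) * d) * -c = 1 := by linear_combination hdet
        rwa [e] at h1
      · intro hne h
        have h1 := h 0 1
        rw [dl_cast, dl_cast, Matrix.adjugate_fin_two_of] at h1
        simp only [Matrix.mul_apply, Fin.sum_univ_two, Matrix.of_apply, Matrix.cons_val', Matrix.cons_val_zero,
          Matrix.cons_val_one, Matrix.cons_val_fin_one] at h1
        have e : (a + 2 * (j : ℕ) * c) * -(b + 2 * (j' : ℕ) * d) + (b + 2 * (j : ℕ) * d) * (a + 2 * (j' : ℕ) * c)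
            = 2 * (((j : ℕ) : ℤ) - ((j' : ℕ) : ℤ)) := by
          linear_combination 2 * (((j : ℕ) : ℤ) - ((j' : ℕ) : ℤ)) * hdet
        rw [e] at h1
        have h3 : (l : ℤ) ∣ ((j : ℕ) : ℤ) - ((j' : ℕ) : ℤ) := by
          rcases hlpz.dvd_or_dvd h1 with h4 | h4
          · exfalso
            have h5 : l ∣ 2 := by exact_mod_cast h4
            exact hl2 ((Nat.prime_dvd_prime_iff_eq hl Nat.prime_two).1 h5)
          · exact h4
        apply hne
        congr 1
        apply Fin.ext
        have hj := j.isLt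
        have hj' := j'.isLt
        have h2 : ((j : ℕ) : ℤ) - ((j' : ℕ) : ℤ) = 0 := by
          apply Int.eq_zero_of_abs_lt_dvd h3
          rw [abs_lt]
          constructor <;> omega
        omega)
  have hep : ∀ P, eps (dl l a b c d P 0 0) (dl l a b c d P 0 1) (dl l a b c d P 1 0) (dl l a b c d P 1 1) =
      eps a b c d := by
    intro P
    refine Fin.lastCases ?_ (fun j => ?_) P
    · rw [dl_last]
      apply eps_mod
      · exact ⟨k * a, by
          simp only [Matrix.of_apply, Matrix.cons_val', Matrix.cons_val_zero, Matrix.cons_val_fin_one]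
          rw [hkz]; ring⟩
      · exact ⟨k * b, by
          simp only [Matrix.of_apply, Matrix.cons_val', Matrix.cons_val_zero, Matrix.cons_val_one,
            Matrix.cons_val_fin_one]
          rw [hkz]; ring⟩
      · exact ⟨0, by
          simp only [Matrix.of_apply, Matrix.cons_val', Matrix.cons_val_zero, Matrix.cons_val_one,
            Matrix.cons_val_fin_one]
          ring⟩
      · exact ⟨0, by
          simp only [Matrix.of_apply, Matrix.cons_val', Matrix.cons_val_one,
            Matrix.cons_val_fin_one]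
          ring⟩
    · rw [dl_cast]
      apply eps_mod
      · exact ⟨(j : ℕ) * c, by
          simp only [Matrix.of_apply, Matrix.cons_val', Matrix.cons_val_zero, Matrix.cons_val_fin_one]
          ring⟩
      · exact ⟨(j : ℕ) * d, by
          simp only [Matrix.of_apply, Matrix.cons_val', Matrix.cons_val_zero, Matrix.cons_val_one,
            Matrix.cons_val_fin_one]
          ring⟩
      · exact ⟨k * c, by
          simp only [Matrix.of_apply, Matrix.cons_val', Matrix.cons_val_zero, Matrix.cons_val_one,
            Matrix.cons_val_fin_one]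
          rw [hkz]; ring⟩
      · exact ⟨k * d, by
          simp only [Matrix.of_apply, Matrix.cons_val', Matrix.cons_val_one,
            Matrix.cons_val_fin_one]
          rw [hkz]; ring⟩
  have e : (fun x y => ∑ P, eps (dl l a b c d P 0 0) (dl l a b c d P 0 1) (dl l a b c d P 1 0)
      (dl l a b c d P 1 1) • G (dl l a b c d P 0 0 * x + dl l a b c d P 0 1 * y)
      (dl l a b c d P 1 0 * x + dl l a b c d P 1 1 * y)) = eps a b c d • act a b c d (Tl l 2 G) := by
    funext x y
    simp only [hep]
    rw [← Finset.smul_sum, Fin.sum_univ_castSucc]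
    simp only [dl_last, dl_cast, Matrix.of_apply, Matrix.cons_val', Matrix.cons_val_zero,
      Matrix.cons_val_one, Matrix.cons_val_fin_one]
    show _ = eps a b c d • (act a b c d (Tl l 2 G) x y)
    congr 1
    unfold act Tl
    rw [Finset.sum_range, add_comm]
    congr 1
    · congr 1
      ring
    · refine Finset.sum_congr rfl fun j _ => ?_
      congr 1 <;> ring
  rw [e] at key
  have key2 := key.smul (eps a b c d)
  rwa [eps_smul_smul] at key2

/-- MODULE HKS -/
theorem hHkS (h : SEHk) : SEHkS := by
  intro p hp hp2 R inst n G hG l hl hlp hl2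
  exact sym_Tl h p hp hp2 R n l G hl hlp hl2 hG

end Pool.Agent.Helper68.TLE
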